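import Pool.Agent.W251.GX.Defs

/-!
Project GX (helper940 for helper251): from pairs of determinant one to integers (S_FIN), and S_BSC.
Port of `W214/FP/Finq`.
-/

set_option autoImplicit false

namespace Pool.Agent.W940.GX

open Finset Filter
open Pool.Agent.H376R2.MR
open Pool.Agent.W78.GA Pool.Agent.W78.GC Pool.Agent.W84.FP
open Pool.Agent.W251.GX (EA Pos Con Bs S_FIN S_BSC)

lemma hD01 : (0 : ℤ) ^ 2 < 4 * 1 := by norm_num

open scoped Classical in
/-- the pairs without large square divisors -/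
noncomputable def Bq (P : ℤ → Prop) (S : ℕ) (X : ℝ) : Finset (Gi × Gi) :=
  (EA P X).filter (fun e => ∀ k : ℕ, k ^ 2 ∣ NN e → k ≤ S)

lemma mem_EA {P : ℤ → Prop} {X : ℝ} {e : Gi × Gi} : e ∈ EA P X ↔
    e ∈ dedge 0 1 X ∧ 0 < ip e.1 e.2 ∧ P (ip e.1 e.2) := by
  simp [EA]

lemma mem_Bq {P : ℤ → Prop} {S : ℕ} {X : ℝ} {e : Gi × Gi} : e ∈ Bq P S X ↔
    e ∈ EA P X ∧ (∀ k : ℕ, k ^ 2 ∣ NN e → k ≤ S) := by
  simp [Bq]

theorem bq_all {P : ℤ → Prop} (h : Pos P) (hsqb : S_SQB 0 1) : ∃ S : ℕ,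
      ∃ κ X₀ : ℝ, 0 < κ ∧ ∀ X : ℝ, X₀ ≤ X → κ * X ≤ ((Bq P S X).card : ℝ) := by
  classical
  obtain ⟨κ, hκ, X₁, h⟩ := h
  obtain ⟨S₁, X₂, hS⟩ := hsqb (κ / 2) (by linarith)
  refine ⟨S₁, κ / 2, max X₁ X₂, by linarith, fun X hX => ?_⟩
  have hX1 : X₁ ≤ X := (le_max_left _ _).trans hX
  have hX2 : X₂ ≤ X := (le_max_right _ _).trans hX
  have h1 := h X hX1
  have h2 := hS X hX2
  have hsub : EA P X ⊆
      ((dedge 0 1 X).filter (fun e => ∃ k : ℕ, S₁ < k ∧ k ^ 2 ∣ NN e)) ∪ Bq P S₁ X := by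
    intro x hx
    obtain ⟨hx1, hx2, hx3⟩ := mem_EA.1 hx
    by_cases h4 : ∃ k : ℕ, S₁ < k ∧ k ^ 2 ∣ NN x
    · exact mem_union_left _ (mem_filter.2 ⟨hx1, h4⟩)
    refine mem_union_right _ (mem_Bq.2 ⟨hx, fun k hk => ?_⟩)
    by_contra h6
    exact h4 ⟨k, not_le.1 h6, hk⟩
  have hcard : ((EA P X).card : ℝ) ≤
      (((dedge 0 1 X).filter (fun e => ∃ k : ℕ, S₁ < k ∧ k ^ 2 ∣ NN e)).card : ℝ) +
      ((Bq P S₁ X).card : ℝ) := by
    exact_mod_cast (card_le_card hsub).trans (card_union_le _ _)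
  linarith

/-- the integer attached to a pair -/
def nq (e : Gi × Gi) : ℕ := (ip e.1 e.2).toNat

lemma nq_facts {P : ℤ → Prop} {S : ℕ} {X : ℝ} {e : Gi × Gi}
    (he : e ∈ Bq P S X) : (nq e : ℤ) = ip e.1 e.2 ∧ 1 ≤ nq e ∧
      nm e.1 * nm e.2 = nq e ^ 2 + 1 ∧ P (nq e) ∧
      (∀ k : ℕ, k ^ 2 ∣ nq e ^ 2 + 1 → k ≤ S) ∧
      prim e.1 ∧ prim e.2 ∧ (nm e.1 : ℝ) ≤ X ∧ (nm e.2 : ℝ) ≤ X ∧ dt e.1 e.2 = 1 := by
  obtain ⟨h1, h2⟩ := mem_Bq.1 he
  obtain ⟨h4, h5, h6⟩ := mem_EA.1 h1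
  obtain ⟨m1, m2, m3⟩ := mem_dedge.1 h4
  obtain ⟨p1, n1⟩ := (mem_pball hD01).1 m1
  obtain ⟨p2, n2⟩ := (mem_pball hD01).1 m2
  have e1 : (nq e : ℤ) = ip e.1 e.2 := by
    unfold nq
    exact Int.toNat_of_nonneg h5.le
  have e2 : nm e.1 * nm e.2 = nq e ^ 2 + 1 := by
    have := NN_eq hD01 m3
    unfold NN at this
    rw [← e1] at this
    have h9 : ((nm e.1 * nm e.2 : ℕ) : ℤ) = ((nq e ^ 2 + 1 : ℕ) : ℤ) := by
      rw [this]
      push_cast
      ring
    exact_mod_cast h9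
  refine ⟨e1, by omega, e2, ?_, ?_, p1, p2, n1, n2, m3⟩
  · rw [e1]; exact h6
  · intro k hk
    rw [← e2] at hk
    exact h2 k hk

/-- from pairs to integers -/
theorem count_of {P : ℤ → Prop} (hmult : S_MULT 0 1) (htyp : S_TYP 0 1) (hve : S_VE 0 1) (S : ℕ)
    (h : ∃ κ X₀ : ℝ, 0 < κ ∧ ∀ X : ℝ, X₀ ≤ X → κ * X ≤ ((Bq P S X).card : ℝ)) (ε : ℝ)
    (hε : 0 < ε) : ∃ N₀ : ℕ, ∀ N : ℕ, N₀ ≤ N →
    (N : ℝ) / Real.log N ^ (2 * Real.log 2 + ε) ≤
    (Set.ncard {n : ℕ | 1 ≤ n ∧ n ≤ N ∧ P n ∧ ∀ k : ℕ, k ^ 2 ∣ n ^ 2 + 1 → k ≤ S} : ℝ) := by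
  classical
  obtain ⟨b, X₁, hb, hB⟩ := h
  obtain ⟨C, hC, hve⟩ := hve
  set κ : ℝ := min 1 (b / (8 * C)) with hκ
  have hκ0 : 0 < κ := lt_min one_pos (by positivity)
  have hκ1 : κ ≤ 1 := min_le_left _ _
  have hκ2 : C * κ ≤ b / 8 := by
    have : κ ≤ b / (8 * C) := min_le_right _ _
    calc C * κ ≤ C * (b / (8 * C)) := mul_le_mul_of_nonneg_left this hC.le
      _ = b / 8 := by field_simp
  obtain ⟨X₂, htyp⟩ := htyp (ε / 4) (b * κ / (8 * C)) (by linarith) (by positivity)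
  set g : ℝ := 2 * (1 + ε / 4) * Real.log 2 with hg
  have hlog2 : Real.log 2 < 0.6931471808 := Real.log_two_lt_d9
  have hlog2p : 0 < Real.log 2 := Real.log_pos (by norm_num)
  have hgap : 0 < 2 * Real.log 2 + ε - g := by rw [hg]; nlinarith
  have hfin : ∀ N : ℕ, ∃ T : Finset ℕ, (T : Set ℕ) = {n : ℕ | 1 ≤ n ∧ n ≤ N ∧ P n ∧
      ∀ k : ℕ, k ^ 2 ∣ n ^ 2 + 1 → k ≤ S} := by
    intro N
    have : Set.Finite {n : ℕ | 1 ≤ n ∧ n ≤ N ∧ P n ∧
      ∀ k : ℕ, k ^ 2 ∣ n ^ 2 + 1 → k ≤ S} :=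
      (Set.finite_Icc 1 N).subset fun n hn => ⟨hn.1, hn.2.1⟩
    exact ⟨this.toFinset, this.coe_toFinset⟩
  have hmain : ∀ (N : ℕ) (T : Finset ℕ), (T : Set ℕ) = {n : ℕ | 1 ≤ n ∧ n ≤ N ∧
      P n ∧ ∀ k : ℕ, k ^ 2 ∣ n ^ 2 + 1 → k ≤ S} →
      X₁ ≤ (N : ℝ) → X₂ ≤ (N : ℝ) → 3 ≤ (N : ℝ) →
      b / 2 * N ≤ 6 * ((S : ℝ) ^ 2 * Real.log N ^ g) * (T.card : ℝ) := by
    intro N T hT hN1 hN2 hN3
    obtain ⟨X, hXN⟩ : ∃ X : ℝ, X = (N : ℝ) := ⟨_, rfl⟩
    rw [← hXN] at hN1 hN2 hN3 ⊢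
    have hXpos : (0 : ℝ) < X := by linarith
    set V := (pball 0 1 X).filter (fun z =>
      (1 + ε / 4) * Real.log (Real.log X) < (((nm z).primeFactors.card : ℕ) : ℝ)) with hV
    have hVc : (V.card : ℝ) ≤ b * κ / (8 * C) * X := htyp X hN2
    have hVE := hve κ X V hκ0 hκ1 (by linarith)
    have hVi : ((V ∩ pball 0 1 X).card : ℝ) ≤ b * κ / (8 * C) * X :=
      le_trans (by exact_mod_cast card_le_card inter_subset_left) hVc
    set S' := (Bq P S X).filter (fun e => ¬ (e.1 ∈ V ∨ e.2 ∈ V)) with hS'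
    have hS1 : ((Bq P S X).card : ℝ) ≤
        (((dedge 0 1 X).filter (fun e => e.1 ∈ V ∨ e.2 ∈ V)).card : ℝ) + S'.card := by
      have : Bq P S X ⊆ (dedge 0 1 X).filter (fun e => e.1 ∈ V ∨ e.2 ∈ V) ∪ S' := by
        intro e he
        by_cases h7 : e.1 ∈ V ∨ e.2 ∈ V
        · exact mem_union_left _ (mem_filter.2 ⟨(mem_EA.1 (mem_Bq.1 he).1).1, h7⟩)
        · exact mem_union_right _ (mem_filter.2 ⟨he, h7⟩)
      exact_mod_cast (card_le_card this).trans (card_union_le _ _)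
    have hVE2 : C * (κ * X + ((V ∩ pball 0 1 X).card : ℝ) / κ) ≤ b / 4 * X := by
      have h1 : ((V ∩ pball 0 1 X).card : ℝ) / κ ≤ b / (8 * C) * X := by
        rw [div_le_iff₀ hκ0]
        calc ((V ∩ pball 0 1 X).card : ℝ) ≤ b * κ / (8 * C) * X := hVi
          _ = b / (8 * C) * X * κ := by ring
      calc C * (κ * X + ((V ∩ pball 0 1 X).card : ℝ) / κ) ≤ C * (κ * X + b / (8 * C) * X) := by
            apply mul_le_mul_of_nonneg_left _ hC.le
            linarith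
        _ = C * κ * X + b / 8 * X := by field_simp
        _ ≤ b / 8 * X + b / 8 * X := by nlinarith
        _ = b / 4 * X := by ring
    have hS3 : b / 2 * X ≤ S'.card := by
      have := hB X hN1
      have h9 : 0 ≤ b / 4 * X := by positivity
      linarith
    refine hS3.trans ?_
    have hmaps : ∀ e ∈ S', nq e ∈ T := by
      intro e he
      obtain ⟨v1, v2, v3, v4, v7, p1, p2, n1, n2, v9⟩ := nq_facts (mem_filter.1 he).1
      rw [← Finset.mem_coe, hT]
      refine ⟨v2, ?_, v4, v7⟩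
      have h1 : nm e.1 ≤ N := by rw [hXN] at n1; exact_mod_cast n1
      have h2 : nm e.2 ≤ N := by rw [hXN] at n2; exact_mod_cast n2
      have h3 : nm e.1 * nm e.2 ≤ N * N := Nat.mul_le_mul h1 h2
      rw [v3] at h3
      nlinarith
    have hfib : ∀ n ∈ T, ((S'.filter (fun e => nq e = n)).card : ℝ) ≤
        6 * ((S : ℝ) ^ 2 * Real.log N ^ g) := by
      intro n _
      rw [← hXN]
      rcases (S'.filter (fun e => nq e = n)).eq_empty_or_nonempty with h0 | h0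
      · rw [h0, card_empty, Nat.cast_zero]
        have : 0 ≤ Real.log X := Real.log_nonneg (by linarith)
        positivity
      · obtain ⟨e₀, he₀⟩ := h0
        obtain ⟨hmem, hen⟩ := mem_filter.1 he₀
        obtain ⟨hmB, hmV⟩ := mem_filter.1 hmem
        obtain ⟨v1, v2, v3, v4, v7, p1, p2, n1, n2, v9⟩ := nq_facts hmB
        have m1 : e₀.1 ∈ pball 0 1 X := (mem_pball hD01).2 ⟨p1, n1⟩
        have m2 : e₀.2 ∈ pball 0 1 X := (mem_pball hD01).2 ⟨p2, n2⟩
        have hNN : NN e₀ = nq e₀ ^ 2 + 1 := v3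
        have hω : (((NN e₀).primeFactors.card : ℕ) : ℝ) ≤
            2 * (1 + ε / 4) * Real.log (Real.log X) := by
          have h1 : ¬ e₀.1 ∈ V := fun hh => hmV (Or.inl hh)
          have h2 : ¬ e₀.2 ∈ V := fun hh => hmV (Or.inr hh)
          rw [hV, mem_filter, not_and, not_lt] at h1 h2
          have h1 := h1 m1
          have h2 := h2 m2
          have h3 : (NN e₀).primeFactors.card ≤
              (nm e₀.1).primeFactors.card + (nm e₀.2).primeFactors.card := by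
            unfold NN
            rw [Nat.primeFactors_mul (nm_pos hD01 (prim_ne_zero p1)).ne'
              (nm_pos hD01 (prim_ne_zero p2)).ne']
            exact card_union_le _ _
          have h3' : (((NN e₀).primeFactors.card : ℕ) : ℝ) ≤
              (nm e₀.1).primeFactors.card + (nm e₀.2).primeFactors.card := by exact_mod_cast h3
          linarith
        have hlogX : 0 < Real.log X := Real.log_pos (by linarith)
        have hg0 : 0 ≤ g := by rw [hg]; positivity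
        have hdiv : (((NN e₀).divisors.card : ℕ) : ℝ) ≤ (S : ℝ) ^ 2 * Real.log X ^ g := by
          have h1 := card_div_le (NN_ne hD01 p1 p2) (S := S) (by rw [hNN]; exact v7)
          have h2 : (((NN e₀).divisors.card : ℕ) : ℝ) ≤
              (S : ℝ) ^ 2 * (2 : ℝ) ^ ((NN e₀).primeFactors.card) := by
            exact_mod_cast h1
          refine h2.trans (mul_le_mul_of_nonneg_left ?_ (by positivity))
          calc (2 : ℝ) ^ ((NN e₀).primeFactors.card)
              = (2 : ℝ) ^ (((NN e₀).primeFactors.card : ℕ) : ℝ) := (Real.rpow_natCast _ _).symm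
            _ ≤ (2 : ℝ) ^ (2 * (1 + ε / 4) * Real.log (Real.log X)) :=
                Real.rpow_le_rpow_of_exponent_le (by norm_num) hω
            _ = Real.log X ^ g := by
                rw [Real.rpow_def_of_pos (by norm_num), Real.rpow_def_of_pos hlogX, hg]
                congr 1
                ring
        have hc1 := fib_le hD01 hmult n (S'.filter (fun e => nq e = n)) (fun e he => by
          obtain ⟨g1, g2⟩ := mem_filter.1 he
          obtain ⟨w1, -, -, -, -, -, -, -, -, w2⟩ := nq_facts (mem_filter.1 g1).1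
          exact ⟨w2, by rw [← w1, g2]⟩)
        have hn1 : ((n : ℤ) ^ 2 + 0 * n + 1).natAbs = NN e₀ := by
          rw [hNN, hen]
          have : ((n : ℤ) ^ 2 + 0 * n + 1) = ((n ^ 2 + 1 : ℕ) : ℤ) := by push_cast; ring
          rw [this, Int.natAbs_natCast]
        rw [hn1] at hc1
        have h8 : ((S'.filter (fun e => nq e = n)).card : ℝ) ≤
            6 * (((NN e₀).divisors.card : ℕ) : ℝ) := by exact_mod_cast hc1
        linarith
    have hsum : (S'.card : ℝ) =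
        ∑ n ∈ T, ((S'.filter (fun e => nq e = n)).card : ℝ) := by
      have := card_eq_sum_card_fiberwise (s := S') (t := T)
        (f := fun e : Gi × Gi => nq e) hmaps
      rw [this]
      push_cast
      rfl
    rw [hsum]
    refine (sum_le_sum hfib).trans ?_
    rw [sum_const, nsmul_eq_mul, ← hXN]
    linarith
  -- conclusion
  have hev : ∀ᶠ x : ℝ in atTop, 12 * (S : ℝ) ^ 2 / b ≤ Real.log x ^ (2 * Real.log 2 + ε - g) :=
    ((tendsto_rpow_atTop hgap).comp Real.tendsto_log_atTop).eventually_ge_atTop _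
  obtain ⟨x₀, hx₀⟩ := eventually_atTop.1 hev
  refine ⟨⌈max (max X₁ X₂) x₀⌉₊ + 6, fun N hN => ?_⟩
  have hN' : max (max X₁ X₂) x₀ ≤ (N : ℝ) := by
    refine (Nat.le_ceil _).trans ?_
    exact_mod_cast (by omega : ⌈max (max X₁ X₂) x₀⌉₊ ≤ N)
  have h1 : X₁ ≤ (N : ℝ) := (le_max_left _ _).trans ((le_max_left _ _).trans hN')
  have h2 : X₂ ≤ (N : ℝ) := (le_max_right _ _).trans ((le_max_left _ _).trans hN')
  have h3 : x₀ ≤ (N : ℝ) := (le_max_right _ _).trans hN'
  have hN3 : 6 ≤ N := by omega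
  have hNr : (6 : ℝ) ≤ N := by exact_mod_cast hN3
  obtain ⟨T, hT⟩ := hfin N
  have h5 := hmain N T hT h1 h2 (by linarith)
  have h6 := hx₀ N h3
  have hlogpos : 0 < Real.log N := Real.log_pos (by linarith)
  rw [← hT, Set.ncard_coe_finset]
  generalize ((T.card : ℕ) : ℝ) = τ at h5 ⊢
  have hgp : 0 < Real.log N ^ g := Real.rpow_pos_of_pos hlogpos _
  have hsplit : Real.log N ^ (2 * Real.log 2 + ε) =
      Real.log N ^ (2 * Real.log 2 + ε - g) * Real.log N ^ g := by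
    rw [← Real.rpow_add hlogpos]
    congr 1
    ring
  rw [div_le_iff₀ (Real.rpow_pos_of_pos hlogpos _), hsplit]
  have ht : 0 ≤ τ := by
    by_contra hneg
    push Not at hneg
    have : 0 < b / 2 * N := by positivity
    have h8 : 6 * ((S : ℝ) ^ 2 * Real.log N ^ g) * τ ≤ 0 :=
      mul_nonpos_of_nonneg_of_nonpos (by positivity) hneg.le
    linarith
  have h7 : (N : ℝ) ≤ 12 * (S : ℝ) ^ 2 / b * (Real.log N ^ g * τ) := by
    rw [div_mul_eq_mul_div, le_div_iff₀ hb]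
    linarith
  calc (N : ℝ) ≤ 12 * (S : ℝ) ^ 2 / b * (Real.log N ^ g * τ) := h7
    _ ≤ Real.log N ^ (2 * Real.log 2 + ε - g) * (Real.log N ^ g * τ) := by
        apply mul_le_mul_of_nonneg_right h6 (by positivity)
    _ = τ * (Real.log N ^ (2 * Real.log 2 + ε - g) * Real.log N ^ g) := by ring

/-- a positive proportion of the factorizations -/
theorem pairs_of {P : ℤ → Prop} (hmult : S_MULT 0 1) (S : ℕ)
    (h : ∃ κ X₀ : ℝ, 0 < κ ∧ ∀ X : ℝ, X₀ ≤ X → κ * X ≤ ((Bq P S X).card : ℝ)) :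
    ∃ κ : ℝ, 0 < κ ∧ ∃ N₀ : ℕ, ∀ N : ℕ, N₀ ≤ N → κ * N ≤
    (Set.ncard {p : ℕ × ℕ | 1 ≤ p.1 ∧ p.1 ≤ N ∧ 1 ≤ p.2 ∧ p.2 ≤ N ∧
      (∃ n : ℕ, 1 ≤ n ∧ P n ∧ p.1 * p.2 = n ^ 2 + 1) ∧
      ∀ k : ℕ, k ^ 2 ∣ p.1 * p.2 → k ≤ S} : ℝ) := by
  classical
  obtain ⟨κ, X₀, hκ, h⟩ := h
  refine ⟨κ / 6, by positivity, ⌈X₀⌉₊, fun N hN => ?_⟩
  have hX : X₀ ≤ (N : ℝ) := (Nat.le_ceil _).trans (by exact_mod_cast hN)
  have h1 := h N hX
  have hfin : Set.Finite {p : ℕ × ℕ | 1 ≤ p.1 ∧ p.1 ≤ N ∧ 1 ≤ p.2 ∧ p.2 ≤ N ∧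
      (∃ n : ℕ, 1 ≤ n ∧ P n ∧ p.1 * p.2 = n ^ 2 + 1) ∧
      ∀ k : ℕ, k ^ 2 ∣ p.1 * p.2 → k ≤ S} :=
    ((Set.finite_Icc 1 N).prod (Set.finite_Icc 1 N)).subset
      fun p hp => ⟨⟨hp.1, hp.2.1⟩, ⟨hp.2.2.1, hp.2.2.2.1⟩⟩
  have hmaps : ∀ x ∈ Bq P S (N : ℝ),
      (fun x : Gi × Gi => (nm x.1, nm x.2)) x ∈ hfin.toFinset := by
    intro x hx
    obtain ⟨v1, v2, v3, v4, v7, p1, p2, n1, n2, v9⟩ := nq_facts hx
    rw [Set.Finite.mem_toFinset]
    refine ⟨nm_pos hD01 (prim_ne_zero p1), by exact_mod_cast n1, nm_pos hD01 (prim_ne_zero p2),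
      by exact_mod_cast n2, ⟨nq x, v2, v4, v3⟩, ?_⟩
    intro k hk
    refine v7 k ?_
    rw [← v3]
    exact hk
  have hfib : ∀ p ∈ hfin.toFinset,
      ((Bq P S (N : ℝ)).filter (fun x => (nm x.1, nm x.2) = p)).card ≤ 6 := by
    intro p _
    rcases ((Bq P S (N : ℝ)).filter
      (fun x => (nm x.1, nm x.2) = p)).eq_empty_or_nonempty with h0 | ⟨x₀, hx₀⟩
    · rw [h0]; simp
    obtain ⟨k1, k2⟩ := mem_filter.1 hx₀
    obtain ⟨v1, -, v3, -, -, -, -, -, -, -⟩ := nq_facts k1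
    refine hmult (nq x₀) p.1 _ (fun x hx => ?_)
    obtain ⟨g1, g2⟩ := mem_filter.1 hx
    obtain ⟨w1, -, w3, -, -, -, -, -, -, w9⟩ := nq_facts g1
    have g5 := g2.trans k2.symm
    rw [Prod.mk.injEq] at g5
    have g6 : nq x ^ 2 + 1 = nq x₀ ^ 2 + 1 := by rw [← w3, ← v3, g5.1, g5.2]
    have g7 : nq x = nq x₀ := by
      have : nq x ^ 2 = nq x₀ ^ 2 := by omega
      exact Nat.pow_left_injective (n := 2) (by norm_num) this
    refine ⟨w9, by rw [← w1, g7], ?_⟩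
    rw [← g2]
  have hcard : (Bq P S (N : ℝ)).card ≤ 6 * hfin.toFinset.card :=
    card_le_mul_card_image_of_maps_to hmaps 6 hfib
  have hcard' : ((Bq P S (N : ℝ)).card : ℝ) ≤ 6 * (hfin.toFinset.card : ℝ) := by
    exact_mod_cast hcard
  rw [Set.ncard_eq_toFinset_card _ hfin]
  linarith

lemma card_le_eight {α : Type*} [DecidableEq α] {a b c d e f g h : α} :
    ({a, b, c, d, e, f, g, h} : Finset α).card ≤ 8 := by
  refine (card_insert_le _ _).trans (Nat.succ_le_succ ?_)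
  refine (card_insert_le _ _).trans (Nat.succ_le_succ ?_)
  refine (card_insert_le _ _).trans (Nat.succ_le_succ ?_)
  refine (card_insert_le _ _).trans (Nat.succ_le_succ ?_)
  refine (card_insert_le _ _).trans (Nat.succ_le_succ ?_)
  refine (card_insert_le _ _).trans (Nat.succ_le_succ ?_)
  refine (card_insert_le _ _).trans (Nat.succ_le_succ ?_)
  simp

/-- BSC -/
theorem bsc (_hlat : S_LAT 0 1) : S_BSC := by
  classical
  intro P C
  constructor
  · intro X hX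
    unfold Pool.Agent.W251.GX.Bs at hX
    rw [mem_union, mem_biUnion] at hX
    rcases hX with ⟨e, he, h0⟩ | h0
    · obtain ⟨h4, -, -⟩ := mem_EA.1 he
      obtain ⟨-, -, m3⟩ := mem_dedge.1 h4
      have key : ∀ x y : ℤ, x * e.1.re + y * e.2.re = 0 → x * e.1.im + y * e.2.im = 0 →
          x = 0 ∧ y = 0 := by
        intro x y h1 h2
        unfold dt at m3
        refine ⟨?_, ?_⟩
        · have : x * (e.1.re * e.2.im - e.1.im * e.2.re) = 0 := by
            linear_combination e.2.im * h1 - e.2.re * h2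
          rw [m3, mul_one] at this
          exact this
        · have : y * (e.1.re * e.2.im - e.1.im * e.2.re) = 0 := by
            linear_combination e.1.re * h2 - e.1.im * h1
          rw [m3, mul_one] at this
          exact this
      simp only [mem_insert, mem_singleton] at h0
      rcases h0 with h | h | h | h | h | h | h | h
      all_goals
        have hr := congrArg QuadraticAlgebra.re h
        have hi := congrArg QuadraticAlgebra.im h
        simp only [QuadraticAlgebra.re_zero, QuadraticAlgebra.im_zero, QuadraticAlgebra.re_neg,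
          QuadraticAlgebra.im_neg, QuadraticAlgebra.re_add, QuadraticAlgebra.im_add,
          QuadraticAlgebra.re_sub, QuadraticAlgebra.im_sub] at hr hi
      · have := key 1 0 (by linarith) (by linarith); omega
      · have := key 1 0 (by linarith) (by linarith); omega
      · have := key 0 1 (by linarith) (by linarith); omega
      · have := key 0 1 (by linarith) (by linarith); omega
      · have := key 1 1 (by linarith) (by linarith); omega
      · have := key 1 1 (by linarith) (by linarith); omega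
      · have := key 1 (-1) (by linarith) (by linarith); omega
      · have := key 1 (-1) (by linarith) (by linarith); omega
    · have := ((mem_ball hD01).1 h0).1
      simp at this
  · rintro ⟨ε, hε, X₀, h⟩
    set K : ℝ := ((ball 0 1 C).card : ℝ) with hK
    refine ⟨ε / 16, by positivity, max X₀ (2 * K / ε), fun X hX => ?_⟩
    have h1 := h X ((le_max_left _ _).trans hX)
    have h2 : 2 * K / ε ≤ X := (le_max_right _ _).trans hX
    rw [div_le_iff₀ hε] at h2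
    have h3 : (Pool.Agent.W251.GX.Bs (EA P X) C).card ≤ (EA P X).card * 8 + (ball 0 1 C).card := by
      unfold Pool.Agent.W251.GX.Bs
      refine (card_union_le _ _).trans (Nat.add_le_add_right ?_ _)
      refine card_biUnion_le_card_mul _ _ _ fun e _ => ?_
      exact card_le_eight
    have h4 : ((Pool.Agent.W251.GX.Bs (EA P X) C).card : ℝ) ≤ ((EA P X).card : ℝ) * 8 + K := by
      rw [hK]
      exact_mod_cast h3
    linarith

/-- FIN -/
theorem fin (hmult : S_MULT 0 1) (htyp : S_TYP 0 1) (hve : S_VE 0 1) (hsqb : S_SQB 0 1)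
    (_hlat : S_LAT 0 1) : S_FIN := by
  intro P h
  obtain ⟨S, hS⟩ := bq_all h hsqb
  exact ⟨S, fun ε hε => count_of hmult htyp hve S hS ε hε, pairs_of hmult S hS⟩

end Pool.Agent.W940.GX
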